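import Pool.Agent.Helper28.LV.StN

/-!
# Project LV, module NR: the transformation under `-1/x`
-/

set_option autoImplicit false

namespace Pool.Agent.Helper16.LV

open Pool.Agent.Helper14.CV (G0 Homog EqC act StFar)
open Pool.Agent.Helper28.WK Pool.Agent.Helper28.LV Pool.Agent.Helper14.WK

/-- The form `∑_t (2a choose t) (-x)^(2a-t) y^t Ψ_t(x,y)`. -/
private noncomputable def hh (a : ℕ) (Ψ : ℤ → ℤ → ℕ → ℂ) (x y : ℤ) : ℂ :=
  ∑ t ∈ Finset.range (2 * a + 1), ((2 * a).choose t : ℂ) * (-(x : ℂ)) ^ (2 * a - t) *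
    (y : ℂ) ^ t * Ψ x y t

private theorem step1 {p a : ℕ} {Φ Ψ : ℤ → ℤ → ℕ → ℂ} (hL : L1S p a Φ Ψ) :
    ∃ c : ℕ → ℂ, ∀ i : ℕ, i ≤ 2 * a → ∀ x y : ℤ, (x ≠ 0 ∨ y ≠ 0) →
      Ψ (-y) x i = (-1) ^ i * Ψ x y (2 * a - i) + c i := by
  have h : ∀ i : ℕ, ∃ c : ℂ, i ≤ 2 * a → ∀ x y : ℤ, (x ≠ 0 ∨ y ≠ 0) →
      Ψ (-y) x i = (-1) ^ i * Ψ x y (2 * a - i) + c := by
    intro i
    by_cases hi : i ≤ 2 * a
    · obtain ⟨c, hc⟩ := hL.eqv 0 (-1) 1 0 (by norm_num) i hi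
      refine ⟨c, fun _ x y h => ?_⟩
      have h1 := hc x y h
      have e : ((Polynomial.C (0 : ℤ) * Polynomial.X + Polynomial.C (-1)) ^ i *
          (Polynomial.C (1 : ℤ) * Polynomial.X + Polynomial.C 0) ^ (2 * a - i)) =
          Polynomial.C ((-1 : ℤ) ^ i) * Polynomial.X ^ (2 * a - i) := by
        simp only [map_zero, map_one, zero_mul, one_mul, zero_add, add_zero, map_pow]
      rw [e, pr_C_mul, pr_X_pow] at h1
      have e1 : act 0 (-1) 1 0 (cp Ψ i) x y = Ψ (-y) x i := by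
        show Ψ (0 * x + (-1) * y) (1 * x + 0 * y) i = Ψ (-y) x i
        congr 1 <;> ring_nf
      have e2 : (((-1 : ℤ) ^ i) • cp Ψ (2 * a - i)) x y = (-1) ^ i * Ψ x y (2 * a - i) := by
        show ((-1 : ℤ) ^ i) • Ψ x y (2 * a - i) = _
        rw [zsmul_eq_mul]
        push_cast
        ring
      rw [e1, e2] at h1
      exact h1
    · exact ⟨0, fun h' => absurd h' hi⟩
  choose c hc using h
  exact ⟨c, hc⟩

private theorem step2 {a : ℕ} {Ψ : ℤ → ℤ → ℕ → ℂ} {c : ℕ → ℂ}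
    (hc : ∀ i : ℕ, i ≤ 2 * a → ∀ x y : ℤ, (x ≠ 0 ∨ y ≠ 0) →
      Ψ (-y) x i = (-1) ^ i * Ψ x y (2 * a - i) + c i) (x y : ℤ) (h : x ≠ 0 ∨ y ≠ 0) :
    hh a Ψ (-y) x = hh a Ψ x y + ∑ t ∈ Finset.range (2 * a + 1),
      ((2 * a).choose t : ℂ) * (y : ℂ) ^ (2 * a - t) * (x : ℂ) ^ t * c t := by
  have e : hh a Ψ x y = ∑ t ∈ Finset.range (2 * a + 1), ((2 * a).choose t : ℂ) *
      (y : ℂ) ^ (2 * a - t) * (x : ℂ) ^ t * ((-1) ^ t * Ψ x y (2 * a - t)) := by
    unfold hh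
    rw [← Finset.sum_range_reflect]
    refine Finset.sum_congr rfl fun t ht => ?_
    have ht' : t ≤ 2 * a := Nat.lt_succ_iff.1 (Finset.mem_range.1 ht)
    have e1 : 2 * a + 1 - 1 - t = 2 * a - t := by omega
    have e2 : 2 * a - (2 * a - t) = t := by omega
    rw [e1, e2, Nat.choose_symm ht', neg_pow (x : ℂ) t]
    ring
  rw [e, ← Finset.sum_add_distrib]
  unfold hh
  refine Finset.sum_congr rfl fun t ht => ?_
  have ht' : t ≤ 2 * a := Nat.lt_succ_iff.1 (Finset.mem_range.1 ht)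
  rw [hc t ht' x y h]
  push_cast
  rw [neg_neg]
  ring

private theorem step3 {p a : ℕ} {Φ Ψ : ℤ → ℤ → ℕ → ℂ} (hL : L1S p a Φ Ψ) (x y : ℤ)
    (h : x ≠ 0 ∨ y ≠ 0) : hh a Ψ (-x) (-y) = hh a Ψ x y := by
  unfold hh
  refine Finset.sum_congr rfl fun t ht => ?_
  have ht' : t ≤ 2 * a := Nat.lt_succ_iff.1 (Finset.mem_range.1 ht)
  have e : Ψ (-x) (-y) t = Ψ x y t := by
    have := hL.hom t ht' (-1) x y (by norm_num) h
    rwa [neg_one_mul, neg_one_mul] at this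
  rw [e]
  push_cast
  rw [neg_neg, neg_pow (x : ℂ), neg_pow (y : ℂ)]
  have e3 : ((-1 : ℂ)) ^ (2 * a - t) = (-1) ^ t := by
    have h1 : ((-1 : ℂ)) ^ (2 * a - t) * (-1) ^ t = 1 := by
      rw [← pow_add, Nat.sub_add_cancel ht', pow_mul]
      norm_num
    have h2 : ((-1 : ℂ)) ^ t * (-1) ^ t = 1 := by
      rw [← mul_pow]; norm_num
    have h3 : ((-1 : ℂ)) ^ t ≠ 0 := pow_ne_zero _ (by norm_num)
    exact mul_right_cancel₀ h3 (h1.trans h2.symm)
  rw [e3]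
  ring

private theorem bounded {H : ℝ → ℂ} (hc : Continuous H) (hp : ∀ x : ℝ, H (x + 1) = H x) :
    ∃ B : ℝ, 0 ≤ B ∧ ∀ x : ℝ, ‖H x‖ ≤ B := by
  obtain ⟨B, hB⟩ := isCompact_Icc.exists_bound_of_continuousOn (s := Set.Icc (0 : ℝ) 1)
    hc.continuousOn
  have hper : Function.Periodic H 1 := hp
  refine ⟨B, (norm_nonneg _).trans (hB 0 (by simp)), fun x => ?_⟩
  obtain ⟨y, hy, hxy⟩ := hper.exists_mem_Ico₀ one_pos x
  rw [hxy]
  exact hB y ⟨hy.1, hy.2.le⟩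

private theorem contGp {N : ℕ} {k : ℤ} (p a : ℕ) (f : CuspForm (G0 N) k) (hp : p.Prime)
    (ha : 2 ≤ a) (hc : Continuous (HK a f)) (hper : ∀ x : ℝ, HK a f (x + 1) = HK a f x) :
    Continuous (Gp p a f) := by
  obtain ⟨B, hB0, hB⟩ := bounded hc hper
  have hp1 : (1 : ℝ) < p := by exact_mod_cast hp.one_lt
  have hq : (((p : ℝ) ^ a)⁻¹) < 1 := inv_lt_one_of_one_lt₀ (one_lt_pow₀ hp1 (by omega))
  have hq0 : 0 ≤ (((p : ℝ) ^ a)⁻¹) := by positivity
  have hu : Summable fun s : ℕ => (2 * B) * (((p : ℝ) ^ a)⁻¹) ^ s :=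
    (summable_geometric_of_lt_one hq0 hq).mul_left _
  unfold Gp
  refine continuous_tsum (fun s => ?_) hu fun s x => ?_
  · refine Continuous.mul continuous_const (Continuous.add (hc.comp ?_) (hc.comp ?_))
    · exact continuous_const.mul continuous_id
    · exact (continuous_const.mul continuous_id).neg
  · rw [norm_mul]
    have e1 : ‖((p : ℂ) ^ (a * s))⁻¹‖ = (((p : ℝ) ^ a)⁻¹) ^ s := by
      rw [norm_inv, norm_pow, Complex.norm_natCast, pow_mul, inv_pow]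
    rw [e1, mul_comm]
    refine mul_le_mul_of_nonneg_right ?_ (pow_nonneg hq0 s)
    calc ‖HK a f ((p : ℝ) ^ s * x) + HK a f (-((p : ℝ) ^ s * x))‖
        ≤ ‖HK a f ((p : ℝ) ^ s * x)‖ + ‖HK a f (-((p : ℝ) ^ s * x))‖ := norm_add_le _ _
      _ ≤ B + B := add_le_add (hB _) (hB _)
      _ = 2 * B := by ring

theorem hNR : StNR := by
  intro hB1 hB3 hNS p a hN f I Ψ hp hea ha hI hI1 hIh hL
  have hser : ∀ r q : ℤ, 0 < q → hh a Ψ r q =
      4 * Complex.I * (q : ℂ) ^ (2 * a) * Gp p a f ((r : ℝ) / (q : ℝ)) :=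
    hNS p a hN f I Ψ hp hea ha hI hI1 hIh hL
  obtain ⟨_, hcont⟩ := hB1 (p ^ 1) hN a f (by omega)
  obtain ⟨_, _, hper⟩ := hB3 (p ^ 1) hN a f (by omega)
  have hG := contGp p a f hp ha hcont hper
  obtain ⟨c, hc⟩ := step1 hL
  have h4 : ∀ r q : ℤ, r ≠ 0 → 0 < q →
      4 * Complex.I * (r : ℂ) ^ (2 * a) * Gp p a f (-(q : ℝ) / (r : ℝ)) =
      4 * Complex.I * (q : ℂ) ^ (2 * a) * Gp p a f ((r : ℝ) / (q : ℝ)) +
        ∑ t ∈ Finset.range (2 * a + 1),
          ((2 * a).choose t : ℂ) * (q : ℂ) ^ (2 * a - t) * (r : ℂ) ^ t * c t := by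
    intro r q hr hq
    rw [← hser r q hq, ← step2 hc r q (Or.inl hr)]
    rcases lt_or_gt_of_ne hr with h | h
    · have h1 := hser q (-r) (by omega)
      have h2 := step3 hL (-q) r (Or.inr hr)
      rw [neg_neg, h1] at h2
      rw [← h2]
      push_cast
      rw [Even.neg_pow (even_two_mul a), div_neg, neg_div]
    · have h1 := hser (-q) r h
      rw [h1]
      push_cast
      rfl
  let P : Polynomial ℂ := ∑ t ∈ Finset.range (2 * a + 1),
    Polynomial.C ((4 * Complex.I)⁻¹ * ((2 * a).choose t : ℂ) * c t) * Polynomial.X ^ t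
  have hPev : ∀ z : ℂ, P.eval z = ∑ t ∈ Finset.range (2 * a + 1),
      (4 * Complex.I)⁻¹ * ((2 * a).choose t : ℂ) * c t * z ^ t := by
    intro z
    simp only [P, Polynomial.eval_finsetSum, Polynomial.eval_mul, Polynomial.eval_C,
      Polynomial.eval_pow, Polynomial.eval_X]
  refine ⟨P, ?_, ?_⟩
  · refine Polynomial.natDegree_sum_le_of_forall_le _ _ fun t ht => ?_
    refine (Polynomial.natDegree_C_mul_X_pow_le _ _).trans ?_
    exact Nat.lt_succ_iff.1 (Finset.mem_range.1 ht)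
  · have h4I : (4 * Complex.I : ℂ) ≠ 0 := mul_ne_zero (by norm_num) Complex.I_ne_zero
    have hrat : ∀ x : ℚ, x ≠ 0 → ((x : ℝ) : ℂ) ^ (2 * a) * Gp p a f (-1 / (x : ℝ)) =
        Gp p a f (x : ℝ) + P.eval ((x : ℝ) : ℂ) := by
      intro x hx
      have hr : x.num ≠ 0 := Rat.num_ne_zero.2 hx
      have hq : (0 : ℤ) < (x.den : ℤ) := by exact_mod_cast x.den_pos
      have h := h4 x.num x.den hr hq
      have hrR : ((x.num : ℤ) : ℝ) ≠ 0 := by exact_mod_cast hr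
      have hqR : (((x.den : ℕ) : ℤ) : ℝ) ≠ 0 := by exact_mod_cast hq.ne'
      have hqC : ((((x.den : ℕ) : ℤ) : ℂ)) ≠ 0 := by exact_mod_cast hq.ne'
      have ex : (x : ℝ) = ((x.num : ℤ) : ℝ) / (((x.den : ℕ) : ℤ) : ℝ) := by
        have := Rat.cast_def (K := ℝ) x
        rw [this]
        push_cast
        rfl
      have e1 : -1 / (x : ℝ) = -(((x.den : ℕ) : ℤ) : ℝ) / ((x.num : ℤ) : ℝ) := by
        rw [ex]
        field_simp
      have exC : ((x : ℝ) : ℂ) = ((x.num : ℤ) : ℂ) / ((((x.den : ℕ) : ℤ) : ℂ)) := by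
        rw [ex]
        push_cast
        rfl
      rw [e1, hPev, exC, ex]
      generalize Gp p a f (-(((x.den : ℕ) : ℤ) : ℝ) / ((x.num : ℤ) : ℝ)) = g1 at h ⊢
      generalize Gp p a f (((x.num : ℤ) : ℝ) / (((x.den : ℕ) : ℤ) : ℝ)) = g2 at h ⊢
      generalize ((x.num : ℤ) : ℂ) = r at h ⊢
      generalize ((((x.den : ℕ) : ℤ) : ℂ)) = q at h hqC ⊢
      have hq2 : q ^ (2 * a) ≠ 0 := pow_ne_zero _ hqC
      have e2 : ∑ t ∈ Finset.range (2 * a + 1),
          (4 * Complex.I)⁻¹ * ((2 * a).choose t : ℂ) * c t * (r / q) ^ t =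
          (4 * Complex.I * q ^ (2 * a))⁻¹ * ∑ t ∈ Finset.range (2 * a + 1),
            ((2 * a).choose t : ℂ) * q ^ (2 * a - t) * r ^ t * c t := by
        rw [Finset.mul_sum]
        refine Finset.sum_congr rfl fun t ht => ?_
        have ht' : t ≤ 2 * a := Nat.lt_succ_iff.1 (Finset.mem_range.1 ht)
        have e3 : q ^ (2 * a) = q ^ (2 * a - t) * q ^ t := by
          rw [← pow_add, Nat.sub_add_cancel ht']
        have hq3 : q ^ (2 * a - t) ≠ 0 := pow_ne_zero _ hqC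
        have hq4 : q ^ t ≠ 0 := pow_ne_zero _ hqC
        rw [e3, div_pow]
        field_simp
      rw [e2]
      have e5 : (r / q) ^ (2 * a) * g1 =
          (4 * Complex.I * q ^ (2 * a))⁻¹ * (4 * Complex.I * r ^ (2 * a) * g1) := by
        rw [div_pow]
        field_simp
      rw [e5, h, mul_add]
      congr 1
      field_simp
    intro x hx
    by_contra hne
    have hcA : ContinuousAt (fun y : ℝ => (y : ℂ) ^ (2 * a) * Gp p a f (-1 / y) -
        (Gp p a f y + P.eval (y : ℂ))) x := by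
      refine ContinuousAt.sub (ContinuousAt.mul ?_ ?_) (ContinuousAt.add hG.continuousAt ?_)
      · exact (Complex.continuous_ofReal.pow _).continuousAt
      · exact hG.continuousAt.comp (ContinuousAt.div continuousAt_const continuousAt_id hx)
      · exact (P.continuous.comp Complex.continuous_ofReal).continuousAt
    have h0 : (x : ℂ) ^ (2 * a) * Gp p a f (-1 / x) - (Gp p a f x + P.eval (x : ℂ)) ≠ 0 :=
      sub_ne_zero.2 hne
    have h1 := hcA.eventually_ne h0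
    have h2 : ∀ᶠ y : ℝ in nhds x, y ≠ 0 := continuousAt_id.eventually_ne hx
    obtain ⟨U, hU, hUo, hxU⟩ := mem_nhds_iff.1 (h1.and h2)
    obtain ⟨q, hq⟩ := Rat.denseRange_cast (𝕜 := ℝ) |>.exists_mem_open hUo ⟨x, hxU⟩
    have h3 := hU hq
    have hq0 : q ≠ 0 := by
      intro h
      exact h3.2 (by rw [h]; simp)
    exact h3.1 (sub_eq_zero.2 (hrat q hq0))

end Pool.Agent.Helper16.LV
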